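import Pool.Agent.Helper37.SN.Stmts

set_option autoImplicit false

namespace Pool.Agent.Helper37.SN

open MeasureTheory Finset
open scoped ENNReal Classical

theorem st_GRD : ST_GRD := by
  intro s c z
  obtain ⟨u, rfl⟩ : ∃ u : ℝ, (u : UnitAddCircle) = z := QuotientAddGroup.mk_surjective z
  have h2 : (0 : ℝ) < 2 ^ s := by positivity
  set A : ℝ := 2 ^ s * u with hA
  set f : ℕ → ℤ := fun i => (i : ℤ) + 2 ^ s * round (u - (i : ℝ) / 2 ^ s) with hf
  have hmaps : ∀ i ∈ (Finset.range (2 ^ s)).filter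
      (fun i : ℕ => ‖(u : UnitAddCircle) - (((i : ℝ) / 2 ^ s : ℝ) : UnitAddCircle)‖ ≤
        (c : ℝ) / 2 ^ s), f i ∈ Finset.Icc ⌈A - c⌉ ⌊A + c⌋ := by
    intro i hi
    have h1 := (mem_filter.1 hi).2
    rw [← AddCircle.coe_sub, UnitAddCircle.norm_eq] at h1
    have h3 : |A - ((f i : ℤ) : ℝ)| ≤ c := by
      have e : A - ((f i : ℤ) : ℝ) =
          2 ^ s * (u - (i : ℝ) / 2 ^ s - ((round (u - (i : ℝ) / 2 ^ s) : ℤ) : ℝ)) := by
        rw [hA, hf]
        push_cast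
        field_simp
        ring
      rw [e, abs_mul, abs_of_pos h2]
      rw [le_div_iff₀ h2] at h1
      linarith
    rw [abs_le] at h3
    rw [mem_Icc]
    exact ⟨Int.ceil_le.2 (by linarith), Int.le_floor.2 (by linarith)⟩
  have hinj : Set.InjOn f ↑((Finset.range (2 ^ s)).filter
      (fun i : ℕ => ‖(u : UnitAddCircle) - (((i : ℝ) / 2 ^ s : ℝ) : UnitAddCircle)‖ ≤
        (c : ℝ) / 2 ^ s)) := by
    intro i hi j hj hij
    have hi' : i < 2 ^ s := mem_range.1 (mem_filter.1 (mem_coe.1 hi)).1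
    have hj' : j < 2 ^ s := mem_range.1 (mem_filter.1 (mem_coe.1 hj)).1
    have h5 : ((i : ℤ) + 2 ^ s * round (u - (i : ℝ) / 2 ^ s)) % (2 ^ s) =
        ((j : ℤ) + 2 ^ s * round (u - (j : ℝ) / 2 ^ s)) % (2 ^ s) := by
      have : f i = f j := hij
      simp only [hf] at this
      rw [this]
    rw [Int.add_mul_emod_self_left, Int.add_mul_emod_self_left] at h5
    rw [Int.emod_eq_of_lt (by positivity) (by exact_mod_cast hi'),
      Int.emod_eq_of_lt (by positivity) (by exact_mod_cast hj')] at h5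
    exact_mod_cast h5
  have hsub : (((Finset.range (2 ^ s) : Finset ℕ) >>= fun a => pure (a : ℝ) : Finset ℝ).filter
      (fun i : ℝ => ‖(u : UnitAddCircle) - ((i / 2 ^ s : ℝ) : UnitAddCircle)‖ ≤
        (c : ℝ) / 2 ^ s)) ⊆ ((Finset.range (2 ^ s)).filter
      (fun i : ℕ => ‖(u : UnitAddCircle) - (((i : ℝ) / 2 ^ s : ℝ) : UnitAddCircle)‖ ≤
        (c : ℝ) / 2 ^ s)).image (fun i : ℕ => (i : ℝ)) := by
    intro x hx
    rw [mem_filter] at hx
    obtain ⟨hx1, hx2⟩ := hx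
    simp only [Finset.bind_def, Finset.pure_def, mem_sup, mem_singleton, mem_range] at hx1
    obtain ⟨a, ha, rfl⟩ := hx1
    exact mem_image.2 ⟨a, mem_filter.2 ⟨mem_range.2 ha, hx2⟩, rfl⟩
  refine (card_le_card hsub).trans (card_image_le.trans ?_)
  refine (card_le_card_of_injOn f hmaps hinj).trans ?_
  rw [Int.card_Icc]
  have e1 : ⌈A - (c : ℝ)⌉ = ⌈A⌉ - c := by
    rw [← Int.ceil_sub_natCast]
  have e2 : ⌊A + (c : ℝ)⌋ = ⌊A⌋ + c := by
    rw [← Int.floor_add_natCast]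
  rw [e1, e2]
  have h6 : ⌊A⌋ ≤ ⌈A⌉ := Int.floor_le_ceil A
  omega

end Pool.Agent.Helper37.SN
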